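import Pool.Agent.R864.CSH.TwoK2

/-!
MP_5bcb58_co, Q1. The bounds `n - b ≤ span_0(G) ≤ n - 1` for the homological span of
degree-zero chromatic symmetric homology hold for every connected graph with `n ≥ 2`
vertices. The upper bound holds for every graph with `n ≥ 2` vertices. The lower bound
fails for the disconnected graph `2K_2` (`n = 4`, `b = 2`, span `1 < 2 = n - b`).
-/

namespace Pool.Agent.Results.MP_5bcb58_co.HomologicalSpan

open Pool.Agent.R864.CSH

theorem result :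
    (∀ n : ℕ, 2 ≤ n → ∀ G : SimpleGraph (Fin n), G.Connected →
      ∃ s : ℕ, IsSpan G s ∧ (n : ℤ) - numBlocks G ≤ s ∧ (s : ℤ) ≤ n - 1) ∧
    (∀ n : ℕ, 2 ≤ n → ∀ G : SimpleGraph (Fin n),
      ∃ s : ℕ, IsSpan G s ∧ (s : ℤ) ≤ n - 1) ∧
    (∃ G : SimpleGraph (Fin 4), numBlocks G = 2 ∧ IsSpan G 1 ∧
      ¬ ((4 : ℤ) - numBlocks G ≤ 1)) := by
  refine ⟨?_, ?_, ?_⟩
  · intro n hn G hG
    obtain ⟨k, hk⟩ := exists_greatest (G := G) hn
    obtain ⟨k', hk', hb⟩ := lower hn hG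
    have h1 := hk.2 hk'
    have h2 := upper hn hk.1
    exact ⟨k + 1, ⟨k, hk, rfl⟩, by push_cast; omega, by push_cast; omega⟩
  · intro n hn G
    obtain ⟨k, hk⟩ := exists_greatest (G := G) hn
    have h2 := upper hn hk.1
    exact ⟨k + 1, ⟨k, hk, rfl⟩, by push_cast; omega⟩
  · refine ⟨twoK2, numBlocks_twoK2, isSpan_twoK2, ?_⟩
    rw [numBlocks_twoK2]
    norm_num

end Pool.Agent.Results.MP_5bcb58_co.HomologicalSpan
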